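import Mathlib

/-!
MP_d12f8b, Q2: the Cantor-Bendixson height is not preserved by order-preserving
bi-Lipschitz bijections between spaces of continuous functions on countable compact spaces.
-/

set_option autoImplicit false

open Topology Filter Set

namespace Pool.Agent.Results.MP_d12f8b_an.HeightNotPreserved

/-- The transfinite Cantor-Bendixson derivatives of a topological space `K`:
`K^(0) = K`, `K^(a+1)` is the set of non-isolated points of `K^(a)`, and intersections are taken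
at limit ordinals. -/
noncomputable def cbDeriv (K : Type) [TopologicalSpace K] (a : Ordinal.{0}) : Set K :=
  Ordinal.limitRecOn a (Set.univ : Set K)
    (fun _ A => derivedSet A ∩ A)
    (fun o _ IH => ⋂ (b : Ordinal.{0}) (hb : b < o), IH b hb)

/-- The height of `K`: the least ordinal `a` with `K^(a) = ∅`. -/
noncomputable def height (K : Type) [TopologicalSpace K] : Ordinal.{0} :=
  sInf {a : Ordinal.{0} | cbDeriv K a = ∅}

section basics

variable (K : Type) [TopologicalSpace K]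

lemma cb_zero : cbDeriv K 0 = Set.univ := by
  simp [cbDeriv]

lemma cb_succ (a : Ordinal.{0}) : cbDeriv K (a + 1) = derivedSet (cbDeriv K a) ∩ cbDeriv K a := by
  simp [cbDeriv]

end basics

/-- `K = [0, ω]`. -/
abbrev KK : Type := OnePoint (ℕ × ℕ)

/-- `L = [0, ω ^ 2]`. -/
abbrev LL : Type := OnePoint (ℕ × OnePoint ℕ)

instance : Countable KK := inferInstanceAs (Countable (Option (ℕ × ℕ)))
instance : Countable (OnePoint ℕ) := inferInstanceAs (Countable (Option ℕ))
instance : Countable LL := inferInstanceAs (Countable (Option (ℕ × OnePoint ℕ)))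

lemma cont_KK (f : KK → ℝ) :
    Continuous f ↔ Tendsto (fun x : ℕ × ℕ => f x) cofinite (𝓝 (f OnePoint.infty)) :=
  OnePoint.continuous_iff_from_discrete f

/-- Neighbourhoods of infinity in `LL`. -/
lemma tendsto_LL (f : LL → ℝ) (y : ℝ) :
    Tendsto (fun x : ℕ × OnePoint ℕ => f x) (coclosedCompact (ℕ × OnePoint ℕ)) (𝓝 y) ↔
      ∀ ε > 0, ∃ N : ℕ, ∀ n ≥ N, ∀ t : OnePoint ℕ, |f ((n, t) : ℕ × OnePoint ℕ) - y| < ε := by
  rw [Metric.tendsto_nhds]
  constructor
  · intro h ε hε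
    have h1 := h ε hε
    rw [Filter.hasBasis_coclosedCompact.eventually_iff] at h1
    obtain ⟨t, ⟨ht, ht2⟩, ht3⟩ := h1
    have : IsCompact (Prod.fst '' t) := ht2.image continuous_fst
    have hfin : (Prod.fst '' t).Finite := this.finite_of_discrete
    obtain ⟨N, hN⟩ := hfin.bddAbove
    refine ⟨N + 1, fun n hn s => ?_⟩
    have : ((n, s) : ℕ × OnePoint ℕ) ∈ tᶜ := by
      intro hmem
      have := hN (Set.mem_image_of_mem Prod.fst hmem)
      simp at this
      omega
    have := ht3 this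
    simpa [Real.dist_eq] using this
  · intro h ε hε
    obtain ⟨N, hN⟩ := h ε hε
    rw [Filter.hasBasis_coclosedCompact.eventually_iff]
    refine ⟨Set.Iio N ×ˢ Set.univ, ⟨(isClosed_discrete _).prod isClosed_univ,
      ((Set.finite_Iio N).isCompact).prod isCompact_univ⟩, ?_⟩
    rintro ⟨n, s⟩ hns
    simp only [mem_compl_iff, mem_prod, mem_Iio, mem_univ, and_true, not_lt] at hns
    simpa [Real.dist_eq] using hN n hns s

lemma cont_LL (f : LL → ℝ) :
    Continuous f ↔
      (∀ ε > 0, ∃ N : ℕ, ∀ n ≥ N, ∀ t : OnePoint ℕ,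
        |f ((n, t) : ℕ × OnePoint ℕ) - f OnePoint.infty| < ε) ∧
      (∀ n : ℕ, Tendsto (fun m : ℕ => f ((n, (m : OnePoint ℕ)) : ℕ × OnePoint ℕ)) atTop
        (𝓝 (f ((n, (OnePoint.infty : OnePoint ℕ)) : ℕ × OnePoint ℕ)))) := by
  rw [OnePoint.continuous_iff, tendsto_LL]
  apply and_congr_right
  intro _
  constructor
  · intro h n
    have h2 : Continuous (fun t : OnePoint ℕ => f ((n, t) : ℕ × OnePoint ℕ)) :=
      h.comp (Continuous.prodMk_right n)
    exact (OnePoint.continuous_iff_from_nat _).1 h2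
  · intro h
    rw [continuous_prod_of_discrete_left]
    intro n
    exact (OnePoint.continuous_iff_from_nat
      (fun t : OnePoint ℕ => f ((n, t) : ℕ × OnePoint ℕ))).2 (h n)

/-- The formula for the operator. -/
noncomputable def Tfun (f : KK → ℝ) : LL → ℝ
  | none => f OnePoint.infty
  | some (n, none) => (f ((n, 0) : ℕ × ℕ) + f OnePoint.infty) / 2
  | some (n, some m) => (f ((n, 0) : ℕ × ℕ) + f ((n, m + 1) : ℕ × ℕ)) / 2

/-- The formula for its inverse. -/
noncomputable def Sfun (g : LL → ℝ) : KK → ℝ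
  | none => g OnePoint.infty
  | some (n, 0) => 2 * g ((n, (OnePoint.infty : OnePoint ℕ)) : ℕ × OnePoint ℕ) - g OnePoint.infty
  | some (n, m + 1) => 2 * g ((n, (m : OnePoint ℕ)) : ℕ × OnePoint ℕ)
      - 2 * g ((n, (OnePoint.infty : OnePoint ℕ)) : ℕ × OnePoint ℕ) + g OnePoint.infty

lemma ev_KK {f : KK → ℝ} (hf : Continuous f) {ε : ℝ} (hε : 0 < ε) :
    {x : ℕ × ℕ | ¬ |f x - f OnePoint.infty| < ε}.Finite := by
  have h := (cont_KK f).1 hf
  rw [Metric.tendsto_nhds] at h
  have := h ε hε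
  rw [Filter.eventually_cofinite] at this
  simpa [Real.dist_eq] using this

lemma Tfun_cont {f : KK → ℝ} (hf : Continuous f) : Continuous (Tfun f) := by
  rw [cont_LL]
  constructor
  · intro ε hε
    obtain ⟨N, hN⟩ := ((ev_KK hf hε).image Prod.fst).bddAbove
    have key : ∀ n ≥ N + 1, ∀ m : ℕ, |f ((n, m) : ℕ × ℕ) - f OnePoint.infty| < ε := by
      intro n hn m
      by_contra hcon
      have := hN (Set.mem_image_of_mem Prod.fst (show (n, m) ∈ {x : ℕ × ℕ |
        ¬ |f x - f OnePoint.infty| < ε} from hcon))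
      simp at this
      omega
    refine ⟨N + 1, fun n hn t => ?_⟩
    have k0 := abs_lt.1 (key n hn 0)
    induction t using OnePoint.rec with
    | infty =>
      change |(f ((n, 0) : ℕ × ℕ) + f OnePoint.infty) / 2 - f OnePoint.infty| < ε
      rw [abs_lt]
      constructor <;> linarith [k0.1, k0.2]
    | coe m =>
      change |(f ((n, 0) : ℕ × ℕ) + f ((n, m + 1) : ℕ × ℕ)) / 2 - f OnePoint.infty| < ε
      have k1 := abs_lt.1 (key n hn (m + 1))
      rw [abs_lt]
      constructor <;> linarith [k0.1, k0.2, k1.1, k1.2]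
  · intro n
    change Tendsto (fun m : ℕ => (f ((n, 0) : ℕ × ℕ) + f ((n, m + 1) : ℕ × ℕ)) / 2) atTop
      (𝓝 ((f ((n, 0) : ℕ × ℕ) + f OnePoint.infty) / 2))
    apply Tendsto.div_const
    apply Tendsto.const_add
    have h := (cont_KK f).1 hf
    have hinj : Function.Injective (fun m : ℕ => ((n, m + 1) : ℕ × ℕ)) := by
      intro a b hab
      simpa using hab
    have := h.comp hinj.tendsto_cofinite
    rwa [Nat.cofinite_eq_atTop] at this

lemma Sfun_cont {g : LL → ℝ} (hg : Continuous g) : Continuous (Sfun g) := by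
  rw [cont_KK, Metric.tendsto_nhds]
  intro ε hε
  rw [cont_LL] at hg
  obtain ⟨h1, h2⟩ := hg
  obtain ⟨N, hN⟩ := h1 (ε / 5) (by positivity)
  have h3 : ∀ n : ℕ, ∃ M : ℕ, ∀ m ≥ M, |g ((n, (m : OnePoint ℕ)) : ℕ × OnePoint ℕ)
      - g ((n, (OnePoint.infty : OnePoint ℕ)) : ℕ × OnePoint ℕ)| < ε / 5 := by
    intro n
    have := Metric.tendsto_atTop.1 (h2 n) (ε / 5) (by positivity)
    simpa [Real.dist_eq] using this
  choose M hM using h3
  rw [Filter.eventually_cofinite]
  apply Set.Finite.subset (Set.Finite.biUnion (Set.finite_Iio N)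
    (fun n _ => (Set.finite_Iic (M n)).image (fun m => ((n, m) : ℕ × ℕ))))
  rintro ⟨n, m⟩ hx
  change ¬ (_ : Prop) at hx
  simp only [mem_Iio, mem_iUnion, mem_image, mem_Iic, Prod.mk.injEq, exists_prop]
  by_contra hcon
  apply hx
  rw [Real.dist_eq]
  rcases m with _ | m
  · change |2 * g ((n, (OnePoint.infty : OnePoint ℕ)) : ℕ × OnePoint ℕ) - g OnePoint.infty
      - g OnePoint.infty| < ε
    have hn : N ≤ n := by
      by_contra hlt
      exact hcon ⟨n, by omega, 0, by omega, rfl, rfl⟩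
    have := abs_lt.1 (hN n hn OnePoint.infty)
    rw [abs_lt]
    constructor <;> linarith [this.1, this.2]
  · change |2 * g ((n, (m : OnePoint ℕ)) : ℕ × OnePoint ℕ)
      - 2 * g ((n, (OnePoint.infty : OnePoint ℕ)) : ℕ × OnePoint ℕ) + g OnePoint.infty
      - g OnePoint.infty| < ε
    by_cases hn : N ≤ n
    · have e1 := abs_lt.1 (hN n hn OnePoint.infty)
      have e2 := abs_lt.1 (hN n hn (m : OnePoint ℕ))
      rw [abs_lt]
      constructor <;> linarith [e1.1, e1.2, e2.1, e2.2]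
    · have hm : M n ≤ m := by
        by_contra hlt
        exact hcon ⟨n, by omega, m + 1, by omega, rfl, rfl⟩
      have e1 := abs_lt.1 (hM n m hm)
      rw [abs_lt]
      constructor <;> linarith [e1.1, e1.2]

lemma ST (f : KK → ℝ) : Sfun (Tfun f) = f := by
  funext x
  rcases x with _ | ⟨n, _ | m⟩
  · rfl
  · change 2 * ((f ((n, 0) : ℕ × ℕ) + f OnePoint.infty) / 2) - f OnePoint.infty
      = f ((n, 0) : ℕ × ℕ)
    ring
  · change 2 * ((f ((n, 0) : ℕ × ℕ) + f ((n, m + 1) : ℕ × ℕ)) / 2)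
      - 2 * ((f ((n, 0) : ℕ × ℕ) + f OnePoint.infty) / 2) + f OnePoint.infty
      = f ((n, m + 1) : ℕ × ℕ)
    ring

lemma TS (g : LL → ℝ) : Tfun (Sfun g) = g := by
  funext x
  rcases x with _ | ⟨n, _ | m⟩
  · rfl
  · change ((2 * g ((n, (OnePoint.infty : OnePoint ℕ)) : ℕ × OnePoint ℕ) - g OnePoint.infty)
      + g OnePoint.infty) / 2 = g ((n, (OnePoint.infty : OnePoint ℕ)) : ℕ × OnePoint ℕ)
    ring
  · change ((2 * g ((n, (OnePoint.infty : OnePoint ℕ)) : ℕ × OnePoint ℕ) - g OnePoint.infty)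
      + (2 * g ((n, (m : OnePoint ℕ)) : ℕ × OnePoint ℕ)
      - 2 * g ((n, (OnePoint.infty : OnePoint ℕ)) : ℕ × OnePoint ℕ) + g OnePoint.infty)) / 2
      = g ((n, (m : OnePoint ℕ)) : ℕ × OnePoint ℕ)
    ring

lemma Tfun_mono {f f' : KK → ℝ} (h : f ≤ f') : Tfun f ≤ Tfun f' := by
  intro x
  rcases x with _ | ⟨n, _ | m⟩
  · exact h _
  · have h1 := h ((n, 0) : ℕ × ℕ)
    have h2 := h OnePoint.infty
    change (f ((n, 0) : ℕ × ℕ) + f OnePoint.infty) / 2
      ≤ (f' ((n, 0) : ℕ × ℕ) + f' OnePoint.infty) / 2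
    linarith
  · have h1 := h ((n, 0) : ℕ × ℕ)
    have h2 := h ((n, m + 1) : ℕ × ℕ)
    change (f ((n, 0) : ℕ × ℕ) + f ((n, m + 1) : ℕ × ℕ)) / 2
      ≤ (f' ((n, 0) : ℕ × ℕ) + f' ((n, m + 1) : ℕ × ℕ)) / 2
    linarith

/-- The operator as a linear map. -/
noncomputable def TL : C(KK, ℝ) →ₗ[ℝ] C(LL, ℝ) where
  toFun f := ⟨Tfun f, Tfun_cont f.continuous⟩
  map_add' f g := by
    ext x
    rcases x with _ | ⟨n, _ | m⟩
    · rfl
    · change ((f ((n, 0) : ℕ × ℕ) + g ((n, 0) : ℕ × ℕ)) + (f OnePoint.infty + g OnePoint.infty)) / 2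
        = (f ((n, 0) : ℕ × ℕ) + f OnePoint.infty) / 2 + (g ((n, 0) : ℕ × ℕ) + g OnePoint.infty) / 2
      ring
    · change ((f ((n, 0) : ℕ × ℕ) + g ((n, 0) : ℕ × ℕ))
          + (f ((n, m + 1) : ℕ × ℕ) + g ((n, m + 1) : ℕ × ℕ))) / 2
        = (f ((n, 0) : ℕ × ℕ) + f ((n, m + 1) : ℕ × ℕ)) / 2
          + (g ((n, 0) : ℕ × ℕ) + g ((n, m + 1) : ℕ × ℕ)) / 2
      ring
  map_smul' c f := by
    ext x
    rcases x with _ | ⟨n, _ | m⟩
    · rfl
    · change (c * f ((n, 0) : ℕ × ℕ) + c * f OnePoint.infty) / 2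
        = c * ((f ((n, 0) : ℕ × ℕ) + f OnePoint.infty) / 2)
      ring
    · change (c * f ((n, 0) : ℕ × ℕ) + c * f ((n, m + 1) : ℕ × ℕ)) / 2
        = c * ((f ((n, 0) : ℕ × ℕ) + f ((n, m + 1) : ℕ × ℕ)) / 2)
      ring

/-- The operator as a linear equivalence. -/
noncomputable def TE : C(KK, ℝ) ≃ₗ[ℝ] C(LL, ℝ) :=
  { TL with
    invFun := fun g => ⟨Sfun g, Sfun_cont g.continuous⟩
    left_inv := fun f => by
      ext x
      exact congrFun (ST f) x
    right_inv := fun g => by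
      ext x
      exact congrFun (TS g) x }

lemma TE_apply (f : C(KK, ℝ)) (x : LL) : TE f x = Tfun f x := rfl

lemma TE_symm_apply (g : C(LL, ℝ)) (x : KK) : TE.symm g x = Sfun g x := rfl

lemma TE_norm (f : C(KK, ℝ)) : ‖TE f‖ ≤ 1 * ‖f‖ := by
  rw [one_mul, ContinuousMap.norm_le _ (norm_nonneg _)]
  intro x
  rw [TE_apply, Real.norm_eq_abs]
  have b : ∀ y, -‖f‖ ≤ f y ∧ f y ≤ ‖f‖ := fun y => abs_le.1 (f.norm_coe_le_norm y)
  rcases x with _ | ⟨n, _ | m⟩
  · exact f.norm_coe_le_norm _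
  · change |(f ((n, 0) : ℕ × ℕ) + f OnePoint.infty) / 2| ≤ _
    have h1 := b ((n, 0) : ℕ × ℕ)
    have h2 := b OnePoint.infty
    rw [abs_le]
    constructor <;> linarith [h1.1, h1.2, h2.1, h2.2]
  · change |(f ((n, 0) : ℕ × ℕ) + f ((n, m + 1) : ℕ × ℕ)) / 2| ≤ _
    have h1 := b ((n, 0) : ℕ × ℕ)
    have h2 := b ((n, m + 1) : ℕ × ℕ)
    rw [abs_le]
    constructor <;> linarith [h1.1, h1.2, h2.1, h2.2]

lemma TE_symm_norm (g : C(LL, ℝ)) : ‖TE.symm g‖ ≤ 5 * ‖g‖ := by
  rw [ContinuousMap.norm_le _ (by positivity)]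
  intro x
  rw [TE_symm_apply, Real.norm_eq_abs]
  have b : ∀ y, -‖g‖ ≤ g y ∧ g y ≤ ‖g‖ := fun y => abs_le.1 (g.norm_coe_le_norm y)
  have hn := norm_nonneg g
  rcases x with _ | ⟨n, _ | m⟩
  · have := g.norm_coe_le_norm (OnePoint.infty : LL)
    calc |Sfun g none| = ‖g (OnePoint.infty : LL)‖ := rfl
      _ ≤ ‖g‖ := this
      _ ≤ 5 * ‖g‖ := by linarith
  · change |2 * g ((n, (OnePoint.infty : OnePoint ℕ)) : ℕ × OnePoint ℕ) - g OnePoint.infty| ≤ _
    have h1 := b ((n, (OnePoint.infty : OnePoint ℕ)) : ℕ × OnePoint ℕ)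
    have h2 := b OnePoint.infty
    rw [abs_le]
    constructor <;> linarith [h1.1, h1.2, h2.1, h2.2]
  · change |2 * g ((n, (m : OnePoint ℕ)) : ℕ × OnePoint ℕ)
      - 2 * g ((n, (OnePoint.infty : OnePoint ℕ)) : ℕ × OnePoint ℕ) + g OnePoint.infty| ≤ _
    have h1 := b ((n, (OnePoint.infty : OnePoint ℕ)) : ℕ × OnePoint ℕ)
    have h2 := b OnePoint.infty
    have h3 := b ((n, (m : OnePoint ℕ)) : ℕ × OnePoint ℕ)
    rw [abs_le]
    constructor <;> linarith [h1.1, h1.2, h2.1, h2.2, h3.1, h3.2]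

lemma lip_T : LipschitzWith 1 TE := by
  apply LipschitzWith.of_dist_le_mul
  intro x y
  rw [dist_eq_norm, dist_eq_norm, ← map_sub]
  simpa using TE_norm (x - y)

lemma lip_S : LipschitzWith 5 TE.symm := by
  apply LipschitzWith.of_dist_le_mul
  intro x y
  rw [dist_eq_norm, dist_eq_norm, ← map_sub]
  simpa using TE_symm_norm (x - y)

/-! ### Heights -/

lemma derived_univ_KK : derivedSet (Set.univ : Set KK) = {OnePoint.infty} := by
  ext x
  rw [mem_derivedSet, accPt_iff_nhds, mem_singleton_iff]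
  constructor
  · intro h
    induction x using OnePoint.rec with
    | infty => rfl
    | coe p =>
      exfalso
      have hopen : ({((p : ℕ × ℕ) : KK)} : Set KK) ∈ 𝓝 ((p : ℕ × ℕ) : KK) := by
        rw [OnePoint.nhds_coe_eq]
        simp
      obtain ⟨y, hy, hne⟩ := h _ hopen
      exact hne hy.1
  · rintro rfl U hU
    have h1 := OnePoint.tendsto_coe_infty (X := ℕ × ℕ) hU
    rw [Filter.mem_map, coclosedCompact_eq_cocompact, cocompact_eq_cofinite] at h1
    have h2 : (((fun p : ℕ × ℕ => (p : KK)) ⁻¹' U)).Infinite := by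
      intro hfin
      have h3 := hfin.compl_mem_cofinite
      have h4 := Filter.inter_mem h1 h3
      have : ((fun p : ℕ × ℕ => (p : KK)) ⁻¹' U) ∩ ((fun p : ℕ × ℕ => (p : KK)) ⁻¹' U)ᶜ = ∅ :=
        Set.inter_compl_self _
      have h5 : (∅ : Set (ℕ × ℕ)) ∈ (cofinite : Filter (ℕ × ℕ)) := by
        rw [← this]; exact h4
      exact Filter.empty_notMem _ h5
    obtain ⟨p, hp⟩ := h2.nonempty
    exact ⟨(p : KK), ⟨hp, mem_univ _⟩, OnePoint.coe_ne_infty p⟩

lemma derived_singleton {X : Type} [TopologicalSpace X] (x : X) :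
    derivedSet ({x} : Set X) ∩ {x} = ∅ := by
  ext y
  simp only [mem_inter_iff, mem_singleton_iff, mem_empty_iff_false, iff_false, not_and]
  rintro h rfl
  rw [mem_derivedSet, accPt_iff_nhds] at h
  obtain ⟨z, hz, hne⟩ := h Set.univ Filter.univ_mem
  exact hne hz.2

lemma height_eq {X : Type} [TopologicalSpace X] (n : ℕ)
    (h1 : cbDeriv X ((n + 1 : ℕ) : Ordinal.{0}) = ∅)
    (hmono : ∀ m : ℕ, m ≤ n → cbDeriv X (m : Ordinal.{0}) ≠ ∅) :
    height X = ((n + 1 : ℕ) : Ordinal.{0}) := by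
  apply le_antisymm
  · exact csInf_le' h1
  · apply le_csInf (s := {a : Ordinal.{0} | cbDeriv X a = ∅}) ⟨_, h1⟩
    intro b hb
    by_contra hlt
    rw [not_le] at hlt
    have : b < Ordinal.omega0 := hlt.trans (Ordinal.natCast_lt_omega0 _)
    obtain ⟨m, rfl⟩ := Ordinal.lt_omega0.1 this
    have hm : m < n + 1 := by exact_mod_cast hlt
    exact hmono m (by omega) hb

lemma cb_nat_succ (X : Type) [TopologicalSpace X] (n : ℕ) :
    cbDeriv X ((n + 1 : ℕ) : Ordinal.{0})
      = derivedSet (cbDeriv X (n : Ordinal.{0})) ∩ cbDeriv X (n : Ordinal.{0}) := by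
  rw [Nat.cast_succ]
  exact cb_succ X n

lemma cb_nat_zero (X : Type) [TopologicalSpace X] :
    cbDeriv X ((0 : ℕ) : Ordinal.{0}) = Set.univ := by
  rw [Nat.cast_zero]
  exact cb_zero X

lemma height_KK : height KK = 2 := by
  have c0 := cb_nat_zero KK
  have c1 : cbDeriv KK ((1 : ℕ) : Ordinal.{0}) = {OnePoint.infty} := by
    rw [show (1 : ℕ) = 0 + 1 from rfl, cb_nat_succ, c0, derived_univ_KK, inter_univ]
  have c2 : cbDeriv KK ((2 : ℕ) : Ordinal.{0}) = ∅ := by
    rw [show (2 : ℕ) = 1 + 1 from rfl, cb_nat_succ, c1, derived_singleton]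
  have := height_eq (X := KK) 1 c2 (by
    intro m hm
    interval_cases m
    · rw [c0]; exact Set.univ_nonempty.ne_empty
    · rw [c1]; simp)
  simpa using this

/-- Points of level at least one in `LL`. -/
def lev1 : Set LL :=
  insert OnePoint.infty
    (Set.range (fun n : ℕ => (((n, (OnePoint.infty : OnePoint ℕ)) : ℕ × OnePoint ℕ) : LL)))

lemma nhds_infty_LL {U : Set LL} (hU : U ∈ 𝓝 (OnePoint.infty : LL)) :
    ∃ N : ℕ, ∀ n ≥ N, ∀ t : OnePoint ℕ, (((n, t) : ℕ × OnePoint ℕ) : LL) ∈ U := by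
  have h1 := OnePoint.tendsto_coe_infty (X := ℕ × OnePoint ℕ) hU
  rw [Filter.mem_map, Filter.hasBasis_coclosedCompact.mem_iff] at h1
  obtain ⟨t, ⟨ht, ht2⟩, ht3⟩ := h1
  have hfin : (Prod.fst '' t).Finite := (ht2.image continuous_fst).finite_of_discrete
  obtain ⟨N, hN⟩ := hfin.bddAbove
  refine ⟨N + 1, fun n hn s => ?_⟩
  have : ((n, s) : ℕ × OnePoint ℕ) ∈ tᶜ := by
    intro hmem
    have := hN (Set.mem_image_of_mem Prod.fst hmem)
    simp at this
    omega
  exact ht3 this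

lemma derived_univ_LL : derivedSet (Set.univ : Set LL) = lev1 := by
  ext x
  rw [mem_derivedSet, accPt_iff_nhds]
  constructor
  · intro h
    rcases x with _ | ⟨n, _ | m⟩
    · exact Or.inl rfl
    · exact Or.inr ⟨n, rfl⟩
    · exfalso
      have hopen : ({(((n, (m : OnePoint ℕ)) : ℕ × OnePoint ℕ) : LL)} : Set LL)
          ∈ 𝓝 (((n, (m : OnePoint ℕ)) : ℕ × OnePoint ℕ) : LL) := by
        rw [OnePoint.nhds_coe_eq, nhds_prod_eq, OnePoint.nhds_coe_eq]
        simp
      obtain ⟨y, hy, hne⟩ := h _ hopen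
      exact hne hy.1
  · rintro (rfl | ⟨n, rfl⟩) U hU
    · obtain ⟨N, hN⟩ := nhds_infty_LL hU
      exact ⟨_, ⟨hN N le_rfl OnePoint.infty, mem_univ _⟩, OnePoint.coe_ne_infty _⟩
    · have hc : Tendsto (fun m : ℕ => (((n, (m : OnePoint ℕ)) : ℕ × OnePoint ℕ) : LL)) atTop
          (𝓝 (((n, (OnePoint.infty : OnePoint ℕ)) : ℕ × OnePoint ℕ) : LL)) := by
        have h1 : Continuous (fun t : OnePoint ℕ => (((n, t) : ℕ × OnePoint ℕ) : LL)) :=
          OnePoint.continuous_coe.comp (Continuous.prodMk_right n)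
        have h2 : Tendsto (fun m : ℕ => (m : OnePoint ℕ)) atTop (𝓝 OnePoint.infty) := by
          have := OnePoint.tendsto_coe_infty (X := ℕ)
          rwa [coclosedCompact_eq_cocompact, cocompact_eq_cofinite, Nat.cofinite_eq_atTop] at this
        exact (h1.tendsto _).comp h2
      obtain ⟨m, hm⟩ := (hc.eventually hU).exists
      refine ⟨_, ⟨hm, mem_univ _⟩, ?_⟩
      intro heq
      have := OnePoint.coe_injective heq
      simp at this

lemma derived_lev1 : derivedSet lev1 ∩ lev1 = {OnePoint.infty} := by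
  ext x
  rw [mem_inter_iff, mem_derivedSet, accPt_iff_nhds, mem_singleton_iff]
  constructor
  · rintro ⟨h, (rfl | ⟨n, rfl⟩)⟩
    · rfl
    · exfalso
      have hopen : (Set.image (fun p : ℕ × OnePoint ℕ => (p : LL))
          ({n} ×ˢ (Set.univ : Set (OnePoint ℕ))))
          ∈ 𝓝 (((n, (OnePoint.infty : OnePoint ℕ)) : ℕ × OnePoint ℕ) : LL) := by
        rw [OnePoint.nhds_coe_eq]
        apply Filter.image_mem_map
        apply prod_mem_nhds
        · simp
        · exact Filter.univ_mem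
      obtain ⟨y, ⟨⟨⟨n', t⟩, hn', rfl⟩, hy2⟩, hne⟩ := h _ hopen
      simp only [mem_prod, mem_singleton_iff, mem_univ, and_true] at hn'
      subst hn'
      rcases hy2 with hy2 | ⟨k, hk⟩
      · exact OnePoint.coe_ne_infty _ hy2
      · have := OnePoint.coe_injective hk
        simp only [Prod.mk.injEq] at this
        apply hne
        rw [← this.2]
  · rintro rfl
    refine ⟨?_, Or.inl rfl⟩
    intro U hU
    obtain ⟨N, hN⟩ := nhds_infty_LL hU
    exact ⟨_, ⟨hN N le_rfl OnePoint.infty, Or.inr ⟨N, rfl⟩⟩, OnePoint.coe_ne_infty _⟩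

lemma height_LL : height LL = 3 := by
  have c0 := cb_nat_zero LL
  have c1 : cbDeriv LL ((1 : ℕ) : Ordinal.{0}) = lev1 := by
    rw [show (1 : ℕ) = 0 + 1 from rfl, cb_nat_succ, c0, derived_univ_LL, inter_univ]
  have c2 : cbDeriv LL ((2 : ℕ) : Ordinal.{0}) = {OnePoint.infty} := by
    rw [show (2 : ℕ) = 1 + 1 from rfl, cb_nat_succ, c1, derived_lev1]
  have c3 : cbDeriv LL ((3 : ℕ) : Ordinal.{0}) = ∅ := by
    rw [show (3 : ℕ) = 2 + 1 from rfl, cb_nat_succ, c2, derived_singleton]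
  have := height_eq (X := LL) 2 c3 (by
    intro m hm
    interval_cases m
    · rw [c0]; exact Set.univ_nonempty.ne_empty
    · rw [c1]; exact Set.nonempty_iff_ne_empty.1 ⟨_, Or.inl rfl⟩
    · rw [c2]; simp)
  simpa using this

/-- There are countable compact Hausdorff spaces `K`, `L` of different heights (2 and 3) and a
linear bijection `F : C(K) → C(L)` which is order-preserving and Lipschitz with Lipschitz
inverse. -/
theorem result :
    ∃ (K L : Type) (_ : TopologicalSpace K) (_ : TopologicalSpace L)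
      (_ : CompactSpace K) (_ : CompactSpace L) (_ : T2Space K) (_ : T2Space L)
      (_ : Countable K) (_ : Countable L) (F : C(K, ℝ) ≃ₗ[ℝ] C(L, ℝ)),
      (∀ f g : C(K, ℝ), (∀ x, f x ≤ g x) → ∀ y, F f y ≤ F g y) ∧
      (∃ a : NNReal, LipschitzWith a F) ∧ (∃ b : NNReal, LipschitzWith b F.symm) ∧
      height K = 2 ∧ height L = 3 ∧ height K ≠ height L := by
  refine ⟨KK, LL, inferInstance, inferInstance, inferInstance, inferInstance, inferInstance,
    inferInstance, inferInstance, inferInstance, TE, ?_, ⟨1, lip_T⟩, ⟨5, lip_S⟩,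
    height_KK, height_LL, ?_⟩
  · intro f g h y
    exact Tfun_mono h y
  · rw [height_KK, height_LL]
    norm_num

end Pool.Agent.Results.MP_d12f8b_an.HeightNotPreserved
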